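import Pool.Agent.Y948.PS.Cov6

/-!
# The maximal unramified pro-`ℓ` extension of `κ(x, Y)` is a covering field

(helper948, task COV of project PS.)
-/

set_option autoImplicit false
set_option linter.all false

open Polynomial FF Pool.Agent.Y157.PS

namespace Pool.Agent.Y948.PS

theorem cov (hK0 : S_K0) (hEX : S_EXTV) : S_COV := by
  intro ℓ _ κ R Ω _ _ _ _ _ _ _ _ _ _ x hx B hdvd h3 Y hY M hM Y' hY'
  haveI : CharZero R := charZero_of_injective_algebraMap (algebraMap κ R).injective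
  haveI : IsAlgClosed Ω := IsAlgClosure.isAlgClosed R
  have hℓ0 : ℓ ≠ 0 := (Fact.out : ℓ.Prime).ne_zero
  have hμ : ∀ ζ : Ω, ζ ^ ℓ = 1 → ∃ c : R, algebraMap R Ω c = ζ := fun ζ => muR (κ := κ) hℓ0 ζ
  have hBne : B.Nonempty := Finset.card_pos.1 (by omega)
  have hYf : Y ^ ℓ = algebraMap R Ω (∏ e ∈ B, (x - algebraMap κ R e)) := by
    rw [hY, map_prod]
    refine Finset.prod_congr rfl fun e _ => ?_
    rw [map_sub, ← IsScalarTower.algebraMap_apply]
  have hK : ∀ (γ : Ω ≃ₐ[R] Ω), ∀ t ∈ IntermediateField.adjoin R {Y},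
    γ t ∈ IntermediateField.adjoin R {Y} := fun γ t ht => K0_stable hμ hYf γ ht
  have hRW : ∀ W : ValuationSubring Ω, W ≠ ⊤ → ∃ z : R, algebraMap R Ω z ∉ W := by
    intro W hW
    by_contra hc
    push Not at hc
    exact hW (top_of_R W hc)
  -- uniformisers
  have hUU : ∀ W : ValuationSubring Ω, (∀ c : κ, algebraMap κ Ω c ∈ W) → W ≠ ⊤ →
      ∃ π, Unf (IntermediateField.adjoin R {Y}) W π ∧
        ((∃ e ∈ B, π = Y ∧ IsU W ((algebraMap R Ω x - algebraMap κ Ω e) / Y ^ ℓ)) ∨
          (∃ a, a ∉ B ∧ π = algebraMap R Ω x - algebraMap κ Ω a) ∨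
          π = (algebraMap R Ω x)⁻¹) := by
    intro W hκ hW
    obtain ⟨π, h1, h2, h3, h4⟩ := hK0 ℓ κ R Ω x hx B hdvd hBne Y hY W hκ (hRW W hW)
    refine ⟨π, ⟨?_, h2, ?_, ?_⟩, h3⟩
    · rcases h3 with ⟨e, he, rfl, _⟩ | ⟨a, ha, rfl⟩ | rfl
      · exact IntermediateField.mem_adjoin_simple_self R _
      · refine sub_mem (algebraMap_mem _ _) ?_
        rw [IsScalarTower.algebraMap_apply κ R Ω]
        exact algebraMap_mem _ _
      · exact inv_mem (algebraMap_mem _ _)
    · exact (ValuationSubring.mem_nonunits_iff _).1 h1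
    · intro z hz hz0
      obtain ⟨n, hn⟩ := h4 z hz hz0
      refine ⟨n, ?_⟩
      have h5 := (isU_iff W).1 hn
      rw [map_div₀, map_zpow₀] at h5
      rwa [div_eq_one_iff_eq] at h5
      exact zpow_ne_zero _ ((Valuation.pos_iff _).2 h2).ne'
  have hU : HU κ (IntermediateField.adjoin R {Y}) := fun W hκ hW => by
    obtain ⟨π, h1, _⟩ := hUU W hκ hW
    exact ⟨π, h1⟩
  have hMm : ∀ z, z ∈ M ↔ Mem ℓ κ (IntermediateField.adjoin R {Y}) z := fun z => by
    rw [hM z]
    exact ⟨fun h => maxPro_le hx hYf hU h, fun h => le_maxPro hYf hU h⟩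
  have hKM : IntermediateField.adjoin R {Y} ≤ M := fun z hz => by
    rw [hMm]
    exact K0_le_MF (κ := κ) hμ hYf hz
  have hApx : ∀ W : ValuationSubring Ω, (∀ c : κ, algebraMap κ Ω c ∈ W) → W ≠ ⊤ →
      ∀ z ∈ M, Apx (IntermediateField.adjoin R {Y}) W z := fun W hκ hW z hz =>
    ((hMm z).1 hz).2 W hκ hW
  -- `M / R` is Galois
  haveI hnorm : Normal R M := by
    rw [IntermediateField.normal_iff_forall_map_le']
    rintro σ _ ⟨z, hz, rfl⟩
    exact (hMm _).2 (((hMm z).1 hz).conj hK σ)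
  haveI : Algebra.IsSeparable R M := Algebra.IsAlgebraic.isSeparable_of_perfectField
  haveI hgal : IsGalois R M := ⟨⟩
  have hα : ∀ z : M, algebraMap M Ω z = (z : Ω) := fun z => rfl
  refine ⟨hx, hgal, ?_, hdvd, h3, ?_, ?_, ?_⟩
  · -- pow
    intro z
    obtain ⟨N, h1, _, h2⟩ := exists_lev (ℓ := ℓ) (⊤ : IntermediateField R M)
      (fun σ y _ => trivial)
      (fun θ _ σ => by
        obtain ⟨k, hk⟩ := ((hMm θ).1 θ.2).1
        refine ⟨k, ?_⟩
        have h1 : ∀ (j : ℕ) (z : M), ((σ.liftNormal Ω) ^ j) (z : Ω) = ((σ ^ j) z : M) := by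
          intro j
          induction j with
          | zero => intro z; simp
          | succ j ih =>
            intro z
            rw [pow_succ, AlgEquiv.mul_apply, pow_succ, AlgEquiv.mul_apply, ← ih]
            congr 1
            exact AlgEquiv.liftNormal_commutes σ Ω z
        apply Subtype.ext
        rw [← h1]
        exact hk (σ.liftNormal Ω) 1)
      (z := z) trivial
    exact ⟨N, h1, h2⟩
  · -- eqn
    apply Subtype.ext
    push_cast
    rw [hY', hY]
    rfl
  · -- loc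
    intro V hV hVtop
    obtain ⟨W, hW⟩ := hEX M Ω V
    have hκ : ∀ c : κ, algebraMap κ Ω c ∈ W := by
      intro c
      have h1 := hV c
      rw [← hW, ValuationSubring.mem_comap] at h1
      exact h1
    have hWtop : W ≠ ⊤ := by
      rintro rfl
      apply hVtop
      rw [← hW]
      ext z
      simp [ValuationSubring.mem_comap]
    obtain ⟨π, hπ, hcase⟩ := hUU W hκ hWtop
    obtain ⟨P, hP, hord⟩ := place (κ := κ) hKM W hκ hπ (hApx W hκ hWtop)
    refine ⟨P, by rw [hP, hW], ?_⟩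
    rcases hcase with ⟨e, he, rfl, hu⟩ | ⟨a, ha, rfl⟩ | rfl
    · left
      refine ⟨e, he, ?_, ?_⟩
      · apply hord
        have h1 := (isU_iff W).1 hu
        rw [map_div₀, div_eq_one_iff_eq] at h1
        · rw [zpow_natCast, ← map_pow, ← h1]
          rfl
        · exact ((Valuation.pos_iff _).2 (pow_ne_zero _ hπ.ne)).ne'
      · apply hord
        rw [hY', zpow_one]
    · right; left
      refine ⟨a, ha, ?_⟩
      apply hord
      rw [zpow_one]
      rfl
    · right; right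
      have h1 : P.ord (algebraMap R M x)⁻¹ = 1 := by
        apply hord
        rw [zpow_one]
        rfl
      rw [P.ord_inv] at h1
      omega
  · -- root
    intro g hg hall
    obtain ⟨h, hh⟩ := IsAlgClosed.exists_pow_nat_eq (g : Ω) (Nat.pos_of_ne_zero hℓ0)
    have hg0 : (g : Ω) ≠ 0 := by simpa using hg
    have hgm := (hMm g).1 g.2
    have hhM : h ∈ M := by
      rw [hMm]
      refine ⟨Pro.root hμ (by rw [hh]; exact hgm.1), fun W hκ hW => ?_⟩
      obtain ⟨π, hπ, _⟩ := hUU W hκ hW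
      obtain ⟨P, hP, hord⟩ := place (κ := κ) hKM W hκ hπ (hApx W hκ hW)
      obtain ⟨n, hn⟩ := (hgm.2 W hκ hW).val' hπ hg0
      have h1 : P.ord g = n := hord g n hn
      obtain ⟨m, hm⟩ := hall P
      rw [h1] at hm
      subst hm
      exact Apx.root hπ (hres hx _ W hκ hW) hℓ0 (vl hℓ0 W hκ) h
        (by rw [hh]; exact hgm.2 W hκ hW) m (by rw [hh]; exact hn)
    exact ⟨⟨h, hhM⟩, Subtype.ext (by push_cast; exact hh)⟩

end Pool.Agent.Y948.PS
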