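import Pool.Agent.Y948.PS.Cov5

/-!
# The maximal unramified pro-`ℓ` extension of `κ(x, Y)`, 3

(helper948, task COV of project PS.)
-/

set_option autoImplicit false
set_option linter.all false

open Polynomial FF Pool.Agent.Y157.PS

namespace Pool.Agent.Y948.PS

/-- finite Galois extensions of `ℓ`-power degree -/
theorem exists_lev {F L : Type} [Field F] [Field L] [Algebra F L] [CharZero F] [Normal F L]
    {ℓ : ℕ} [Fact ℓ.Prime] (S : IntermediateField F L)
    (hS : ∀ σ : L ≃ₐ[F] L, ∀ z ∈ S, σ z ∈ S)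
    (hp : ∀ θ ∈ S, ∀ σ : L ≃ₐ[F] L, ∃ k : ℕ, (σ ^ (ℓ ^ k)) θ = θ) {z : L} (hz : z ∈ S) :
    ∃ N : IntermediateField F L, z ∈ N ∧ N ≤ S ∧ Lev ℓ N := by
  have hint : IsIntegral F z := Algebra.IsIntegral.isIntegral z
  haveI : FiniteDimensional F (IntermediateField.adjoin F {z}) :=
    IntermediateField.adjoin.finiteDimensional hint
  let N := IntermediateField.normalClosure F (IntermediateField.adjoin F {z}) L
  have h1 : IntermediateField.adjoin F {z} ≤ N :=
    IntermediateField.le_normalClosure (IntermediateField.adjoin F {z})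
  have h2 : N ≤ S := by
    change IntermediateField.normalClosure F (IntermediateField.adjoin F {z}) L ≤ S
    rw [IntermediateField.normalClosure_def'']
    refine iSup_le fun f => ?_
    rw [IntermediateField.adjoin_map, IntermediateField.adjoin_le_iff]
    rintro _ ⟨y, hy, rfl⟩
    rw [Set.mem_singleton_iff.1 hy]
    exact hS f z hz
  haveI : FiniteDimensional F N := normalClosure.is_finiteDimensional F _ L
  haveI : Normal F N := normalClosure.normal F _ L
  haveI : Algebra.IsSeparable F N := Algebra.IsAlgebraic.isSeparable_of_perfectField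
  haveI : IsGalois F N := ⟨⟩
  refine ⟨N, h1 (IntermediateField.mem_adjoin_simple_self F z), h2, inferInstance, inferInstance,
    lev_of N fun θ hθ σ => hp θ (h2 hθ) σ⟩

section setup

variable {κ R Ω : Type} [Field κ] [Field R] [Field Ω] [Algebra κ R] [Algebra R Ω] [Algebra κ Ω]
  [IsScalarTower κ R Ω]

theorem K0_le_MF {ℓ : ℕ} [Algebra.IsAlgebraic R Ω]
    (hμ : ∀ ζ : Ω, ζ ^ ℓ = 1 → ∃ c : R, algebraMap R Ω c = ζ)
    {Y : Ω} {f : R} (hY : Y ^ ℓ = algebraMap R Ω f) :
    IntermediateField.adjoin R {Y} ≤ MF ℓ κ (IntermediateField.adjoin R {Y}) := by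
  rw [IntermediateField.adjoin_le_iff, Set.singleton_subset_iff]
  exact ⟨Pro.root hμ (by rw [hY]; exact Pro.base ℓ f), fun W h1 h2 =>
    Apx.of_mem (IntermediateField.mem_adjoin_simple_self R Y)⟩

/-- lower bound for `maxPro` -/
theorem le_maxPro [CharZero κ] [IsAlgClosed κ] {ℓ : ℕ} [Fact ℓ.Prime] [Algebra.IsAlgebraic R Ω]
    [Normal R Ω] {Y : Ω} {f : R} (hY : Y ^ ℓ = algebraMap R Ω f)
    (hU : HU κ (IntermediateField.adjoin R {Y})) {z : Ω}
    (hz : Mem ℓ κ (IntermediateField.adjoin R {Y}) z) :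
    z ∈ maxPro ℓ κ (IntermediateField.adjoin R {Y}) Ω := by
  have hℓ0 : ℓ ≠ 0 := (Fact.out : ℓ.Prime).ne_zero
  have hμ : ∀ ζ : Ω, ζ ^ ℓ = 1 → ∃ c : R, algebraMap R Ω c = ζ := fun ζ => muR (κ := κ) hℓ0 ζ
  have hK : ∀ (γ : Ω ≃ₐ[R] Ω), ∀ t ∈ IntermediateField.adjoin R {Y},
    γ t ∈ IntermediateField.adjoin R {Y} := fun γ t ht => K0_stable hμ hY γ ht
  have hle := K0_le_MF (κ := κ) hμ hY
  set K0 := IntermediateField.adjoin R {Y} with hK0
  haveI : CharZero K0 := charZero_of_injective_algebraMap (algebraMap κ K0).injective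
  haveI : Normal K0 Ω := Normal.tower_top_of_normal R K0 Ω
  let S : IntermediateField K0 Ω := IntermediateField.extendScalars hle
  have hS : ∀ y, y ∈ S ↔ Mem ℓ κ K0 y := fun y => IntermediateField.mem_extendScalars hle
  have hres : ∀ (σ : Ω ≃ₐ[K0] Ω) (j : ℕ) (w : Ω), (σ ^ j) w = ((σ.restrictScalars R) ^ j) w := by
    intro σ j
    induction j with
    | zero => intro w; simp
    | succ j ih =>
      intro w
      rw [pow_succ, AlgEquiv.mul_apply, ih, pow_succ, AlgEquiv.mul_apply]
      rfl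
  obtain ⟨N, hzN, hNS, hN⟩ := exists_lev (ℓ := ℓ) S
    (fun σ y hy => (hS _).2 (((hS y).1 hy).conj hK (σ.restrictScalars R)))
    (fun θ hθ σ => by
      obtain ⟨k, hk⟩ := ((hS θ).1 hθ).1
      refine ⟨k, ?_⟩
      rw [hres]
      exact hk (σ.restrictScalars R) 1)
    ((hS z).2 hz)
  have hNu : Unr κ K0 Ω N := by
    intro W hκ w hw hw0
    by_cases hW : W = ⊤
    · refine ⟨1, one_ne_zero, ?_, ?_, ?_⟩
      · rw [map_one, div_one]; exact hw0
      · rw [hW]; trivial
      · rw [hW]; trivial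
    · obtain ⟨π, hπ⟩ := hU W hκ hW
      obtain ⟨t, ht, ht0, h1⟩ := (((hS w).1 (hNS hw)).2 W hκ hW).val hπ hw0
      refine ⟨⟨t, ht⟩, fun h => ht0 (congrArg Subtype.val h), ?_⟩
      rw [isU_iff]
      have h2 : algebraMap K0 Ω ⟨t, ht⟩ = t := rfl
      rw [h2, map_div₀, h1, div_self]
      exact ((Valuation.pos_iff _).2 ht0).ne'
  have h3 : N ≤ maxPro ℓ κ K0 Ω :=
    le_iSup (fun L : {L : IntermediateField K0 Ω // Lev ℓ L ∧ Unr κ K0 Ω L} => L.1) ⟨N, hN, hNu⟩
  exact h3 hzN

/-- places of `M` -/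
theorem place {M K0 : IntermediateField R Ω} [Algebra.IsAlgebraic R Ω] (hKM : K0 ≤ M)
    (W : ValuationSubring Ω) (hκ : ∀ c : κ, algebraMap κ Ω c ∈ W)
    {π : Ω} (hπ : Unf K0 W π) (hM : ∀ z ∈ M, Apx K0 W z) :
    ∃ P : Place κ M, P.O = W.comap (algebraMap M Ω) ∧
      ∀ (z : M) (n : ℤ), W.valuation (z : Ω) = W.valuation π ^ n → P.ord z = n := by
  classical
  have hex : ∀ z : M, z ≠ 0 → ∃ n : ℤ, W.valuation (z : Ω) = W.valuation π ^ n := fun z hz =>
    (hM z z.2).val' hπ (by simpa using hz)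
  have hanti : StrictAnti fun n : ℤ => W.valuation π ^ n := zpow_right_strictAnti₀ hπ.pos hπ.lt
  have hinj : ∀ m n : ℤ, W.valuation π ^ m = W.valuation π ^ n → m = n := fun m n h =>
    hanti.injective h
  let o : M → ℤ := fun z => if h : z = 0 then 0 else (hex z h).choose
  have ho : ∀ z : M, z ≠ 0 → W.valuation (z : Ω) = W.valuation π ^ (o z) := by
    intro z hz
    have : o z = (hex z hz).choose := dif_neg hz
    rw [this]
    exact (hex z hz).choose_spec
  have ho' : ∀ (z : M) (n : ℤ), W.valuation (z : Ω) = W.valuation π ^ n → o z = n := by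
    intro z n h
    have hz : z ≠ 0 := by
      rintro rfl
      have : W.valuation ((0 : M) : Ω) = 0 := by simp
      rw [this] at h
      exact zpow_ne_zero n hπ.pos.ne' h.symm
    rw [ho z hz] at h
    exact hinj _ _ h
  let P : Place κ M :=
    { ord := o
      ord_zero := dif_pos rfl
      ord_mul := by
        intro f g hf hg
        apply ho'
        rw [zpow_add₀ hπ.pos.ne', ← ho f hf, ← ho g hg]
        push_cast
        exact map_mul _ _ _
      ord_add := by
        intro f g hf hg hfg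
        by_contra hc
        push Not at hc
        rw [lt_min_iff] at hc
        have h1 : W.valuation ((f : Ω) + g) ≤ max (W.valuation (f : Ω)) (W.valuation (g : Ω)) :=
          Valuation.map_add _ _ _
        have h2 := ho (f + g) hfg
        have h3 : ((f + g : M) : Ω) = (f : Ω) + g := by push_cast; rfl
        rw [h3] at h2
        rw [h2, ho f hf, ho g hg] at h1
        have h4 := hanti hc.1
        have h5 := hanti hc.2
        exact absurd h1 (not_le.2 (max_lt h4 h5))
      ord_const := by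
        intro c hc
        apply ho'
        rw [zpow_zero]
        have h1 : ((algebraMap κ M c : M) : Ω) = algebraMap κ Ω c := rfl
        rw [h1, ← isU_iff]
        exact ⟨by simpa using hc, hκ c, by rw [← map_inv₀]; exact hκ _⟩
      surj := by
        refine ⟨⟨π, hKM hπ.mem⟩, ?_, ?_⟩
        · intro h
          exact hπ.ne (congrArg Subtype.val h)
        · apply ho'
          rw [zpow_one] }
  refine ⟨P, ?_, ho'⟩
  ext z
  rw [Place.mem_O, ValuationSubring.mem_comap, ← W.valuation_le_one_iff]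
  by_cases hz : z = 0
  · rw [hz]
    constructor
    · intro _; simp
    · intro _; exact P.reg_zero
  · rw [P.reg_iff hz]
    change 0 ≤ o z ↔ W.valuation (z : Ω) ≤ 1
    rw [ho z hz, ← zpow_zero (W.valuation π)]
    exact (hanti.le_iff_ge (a := o z) (b := 0)).symm

end setup

end Pool.Agent.Y948.PS
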