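import Pool.Agent.Y157.PS.Stm2

/-!
# Approximation by elements of a subfield at a valuation ring

(helper948, task COV of project PS.)
-/

set_option autoImplicit false
set_option linter.all false

open Polynomial FF Pool.Agent.Y157.PS

namespace Pool.Agent.Y948.PS

section val

variable {Ω : Type} [Field Ω] (W : ValuationSubring Ω)

theorem isU_iff {x : Ω} : IsU W x ↔ W.valuation x = 1 := by
  constructor
  · rintro ⟨h0, h1, h2⟩
    rw [← W.valuation_le_one_iff] at h1 h2
    refine le_antisymm h1 ?_
    rw [map_inv₀] at h2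
    exact (inv_le_one₀ ((Valuation.pos_iff _).2 h0)).1 h2
  · intro h
    have h0 : x ≠ 0 := by rintro rfl; simp at h
    refine ⟨h0, ?_, ?_⟩
    · rw [← W.valuation_le_one_iff, h]
    · rw [← W.valuation_le_one_iff, map_inv₀, h, inv_one]

theorem le_iff {a b : Ω} (hb : b ≠ 0) : W.valuation a ≤ W.valuation b ↔ a / b ∈ W := by
  rw [← W.valuation_le_one_iff, map_div₀, div_le_one₀ ((Valuation.pos_iff _).2 hb)]

end val

section triv

variable {κ R Ω : Type} [Field κ] [Field R] [Field Ω] [Algebra κ R] [Algebra R Ω] [Algebra κ Ω]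
  [IsScalarTower κ R Ω]

/-- the valuation ring contains the algebraic elements over a subfield of it -/
theorem mem_of_alg {K L : Type} [Field K] [Field L] [Algebra K L] (W : ValuationSubring L)
    (h : ∀ c : K, algebraMap K L c ∈ W) {z : L} (hz : IsAlgebraic K z) : z ∈ W := by
  have h1 : IsIntegral K z := hz.isIntegral
  let i : K →+* W := (algebraMap K L).codRestrict W.toSubring h
  have h2 : IsIntegral W z := by
    obtain ⟨p, hp, h3⟩ := h1
    refine ⟨p.map i, hp.map i, ?_⟩
    rw [eval₂_map]
    exact h3
  obtain ⟨y, hy⟩ := IsIntegrallyClosed.isIntegral_iff.1 h2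
  rw [← hy]
  exact y.2

theorem top_of_R [Algebra.IsAlgebraic R Ω] (W : ValuationSubring Ω)
    (h : ∀ c : R, algebraMap R Ω c ∈ W) : W = ⊤ := by
  ext z
  simp only [ValuationSubring.mem_top, iff_true]
  exact mem_of_alg W h (Algebra.IsAlgebraic.isAlgebraic z)

open IntermediateField in
theorem basis_of_alg {k K : Type} [Field k] [Field K] [Algebra k K] {f : K}
    (hf : Transcendental k f) (h : Algebra.IsAlgebraic k⟮f⟯ K) :
    IsTranscendenceBasis k (fun _ : Unit => f) := by
  have h1 : AlgebraicIndependent k (fun _ : Unit => f) := by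
    rw [algebraicIndependent_unique_type_iff]
    exact hf
  rw [isTranscendenceBasis_iff_algebraicIndependent_isAlgebraic]
  refine ⟨h1, ?_⟩
  have h3 : Set.range (fun _ : Unit => f) = {f} := by simp
  rw [h3]
  open scoped algebraAdjoinAdjoin in
  have h4 : Algebra.IsAlgebraic (Algebra.adjoin k {f}) k⟮f⟯ := inferInstance
  open scoped algebraAdjoinAdjoin in
  exact Algebra.IsAlgebraic.trans (Algebra.adjoin k {f}) k⟮f⟯ K

/-- `Ω` is algebraic over `κ(z)` for every transcendental `z` -/
theorem alg_adjoin [Algebra.IsAlgebraic R Ω] {x : R} (hx : RatF κ x) {z : Ω}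
    (hz : Transcendental κ z) : Algebra.IsAlgebraic (IntermediateField.adjoin κ {z}) Ω := by
  have ht : Transcendental κ (algebraMap R Ω x) := by
    rw [transcendental_algebraMap_iff (algebraMap R Ω).injective]
    exact hx.trans
  have hR : ∀ r : R, algebraMap R Ω r ∈ IntermediateField.adjoin κ {algebraMap R Ω x} := by
    intro r
    have h3 : r ∈ IntermediateField.adjoin κ {x} := by rw [hx.gen]; trivial
    have h4 : (IntermediateField.adjoin κ {x}).map (IsScalarTower.toAlgHom κ R Ω) =
        IntermediateField.adjoin κ {algebraMap R Ω x} := by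
      rw [IntermediateField.adjoin_map, Set.image_singleton]; rfl
    rw [← h4]
    exact ⟨r, h3, rfl⟩
  have halg : Algebra.IsAlgebraic (IntermediateField.adjoin κ {algebraMap R Ω x}) Ω := by
    let L := IntermediateField.adjoin κ {algebraMap R Ω x}
    let i : R →+* L := (algebraMap R Ω).codRestrict L.toSubfield.toSubring hR
    letI : Algebra R L := i.toAlgebra
    have : IsScalarTower R L Ω := IsScalarTower.of_algebraMap_eq fun z => rfl
    exact Algebra.IsAlgebraic.tower_top (K := R) L
  have h2 : IsTranscendenceBasis κ (fun _ : Unit => algebraMap R Ω x) := basis_of_alg ht halg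
  have htr : Algebra.trdeg κ Ω = 1 := by
    have := h2.lift_cardinalMk_eq_trdeg
    simpa using this.symm
  have h5 : AlgebraicIndependent κ (fun _ : Unit => z) := by
    rw [algebraicIndependent_unique_type_iff]
    exact hz
  have h6 : IsTranscendenceBasis κ (fun _ : Unit => z) := by
    refine h5.isTranscendenceBasis_of_lift_trdeg_le_of_finite ?_
    rw [htr]; simp
  have h7 := h6.isAlgebraic_field
  have h8 : Set.range (fun _ : Unit => z) = {z} := by simp
  rwa [h8] at h7

/-- residues are constant -/
theorem res [IsAlgClosed κ] [Algebra.IsAlgebraic R Ω] {x : R} (hx : RatF κ x)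
    (W : ValuationSubring Ω) (hκ : ∀ c : κ, algebraMap κ Ω c ∈ W) (hW : W ≠ ⊤) {z : Ω}
    (hz : z ∈ W) : ∃ c : κ, W.valuation (z - algebraMap κ Ω c) < 1 := by
  by_contra hc
  push Not at hc
  have hone : ∀ c : κ, W.valuation (z - algebraMap κ Ω c) = 1 := fun c =>
    le_antisymm ((W.valuation_le_one_iff _).2 (sub_mem hz (hκ c))) (hc c)
  have hpoly : ∀ p : κ[X], p ≠ 0 → W.valuation (aeval z p) = 1 := by
    intro p hp
    have h1 : p = C p.leadingCoeff * (p.roots.map fun a => X - C a).prod :=
      (IsAlgClosed.splits p).eq_prod_roots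
    have h2 : ∀ s : Multiset κ, W.valuation (aeval z (s.map fun a => X - C a).prod) = 1 := by
      intro s
      induction s using Multiset.induction_on with
      | empty => simp
      | cons a s ih =>
        rw [Multiset.map_cons, Multiset.prod_cons, map_mul, map_mul, ih, mul_one]
        simpa using hone a
    rw [h1, map_mul, map_mul, h2, mul_one, aeval_C]
    have h3 : p.leadingCoeff ≠ 0 := leadingCoeff_ne_zero.2 hp
    refine le_antisymm ((W.valuation_le_one_iff _).2 (hκ _)) ?_
    have h4 := (W.valuation_le_one_iff _).2 (hκ (p.leadingCoeff)⁻¹)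
    rw [map_inv₀, map_inv₀] at h4
    exact (inv_le_one₀ ((Valuation.pos_iff _).2 (by simpa using h3))).1 h4
  have htr : Transcendental κ z := by
    rintro ⟨p, hp, h0⟩
    have := hpoly p hp
    rw [h0, map_zero] at this
    exact zero_ne_one this
  have hfield : ∀ w ∈ IntermediateField.adjoin κ {z}, w ∈ W := by
    intro w hw
    rw [IntermediateField.mem_adjoin_simple_iff] at hw
    obtain ⟨p, q, rfl⟩ := hw
    rw [← W.valuation_le_one_iff, map_div₀]
    by_cases hq : q = 0
    · simp [hq]
    by_cases hp : p = 0
    · simp [hp]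
    rw [hpoly p hp, hpoly q hq, div_one]
  have h9 := alg_adjoin hx htr
  apply hW
  ext w
  simp only [ValuationSubring.mem_top, iff_true]
  exact mem_of_alg W (fun c => hfield _ c.2) (h9.isAlgebraic w)

end triv

end Pool.Agent.Y948.PS
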