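import Pool.Agent.Y948.PS.Cov1

/-!
# Approximation by elements of a subfield at a valuation ring, 2

(helper948, task COV of project PS.)
-/

set_option autoImplicit false
set_option linter.all false

open Polynomial FF Pool.Agent.Y157.PS

namespace Pool.Agent.Y948.PS

variable {R Ω : Type} [Field R] [Field Ω] [Algebra R Ω]

/-- `z` can be approximated by elements of `K0` with every relative precision -/
def Apx (K0 : IntermediateField R Ω) (W : ValuationSubring Ω) (z : Ω) : Prop :=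
  ∀ s ∈ K0, s ≠ 0 → ∃ t ∈ K0, W.valuation (z - t) ≤ W.valuation s

/-- `π` is a uniformiser of `K0` at `W` -/
structure Unf (K0 : IntermediateField R Ω) (W : ValuationSubring Ω) (π : Ω) : Prop where
  mem : π ∈ K0
  ne : π ≠ 0
  lt : W.valuation π < 1
  val : ∀ z ∈ K0, z ≠ 0 → ∃ n : ℤ, W.valuation z = W.valuation π ^ n

variable {K0 : IntermediateField R Ω} {W : ValuationSubring Ω} {π : Ω}

theorem Unf.pos (h : Unf K0 W π) : 0 < W.valuation π := (Valuation.pos_iff _).2 h.ne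

theorem Unf.anti (h : Unf K0 W π) {m n : ℤ} (hmn : m ≤ n) :
    W.valuation π ^ n ≤ W.valuation π ^ m :=
  zpow_le_zpow_right_of_le_one₀ h.pos h.lt.le hmn

theorem Unf.le_of_lt (h : Unf K0 W π) {z : Ω} {n : ℤ} (hz : W.valuation z = W.valuation π ^ n)
    (h1 : W.valuation z < 1) : 1 ≤ n := by
  by_contra hn
  have h2 := h.anti (show n ≤ 0 by omega)
  rw [zpow_zero, ← hz] at h2
  exact absurd h1 (not_lt.2 h2)

theorem Apx.of_mem {z : Ω} (hz : z ∈ K0) : Apx K0 W z := fun s _ _ =>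
  ⟨z, hz, by rw [sub_self, map_zero]; exact zero_le⟩

theorem Apx.add {z w : Ω} (hz : Apx K0 W z) (hw : Apx K0 W w) : Apx K0 W (z + w) := by
  intro s hs h0
  obtain ⟨t, ht, h1⟩ := hz s hs h0
  obtain ⟨t', ht', h2⟩ := hw s hs h0
  refine ⟨t + t', add_mem ht ht', ?_⟩
  have : z + w - (t + t') = (z - t) + (w - t') := by ring
  rw [this]
  exact (Valuation.map_add _ _ _).trans (max_le h1 h2)

theorem Apx.bdd {z : Ω} (h : Apx K0 W z) : ∃ b ∈ K0, b ≠ 0 ∧ W.valuation z ≤ W.valuation b := by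
  obtain ⟨t, ht, h1⟩ := h 1 (one_mem _) one_ne_zero
  rw [map_one] at h1
  have h2 : W.valuation z ≤ max (W.valuation (z - t)) (W.valuation t) := by
    have := Valuation.map_add W.valuation (z - t) t
    rwa [sub_add_cancel] at this
  rcases le_total (W.valuation t) 1 with h3 | h3
  · refine ⟨1, one_mem _, one_ne_zero, ?_⟩
    rw [map_one]
    exact h2.trans (max_le h1 h3)
  · refine ⟨t, ht, ?_, h2.trans (max_le (h1.trans h3) le_rfl)⟩
    rintro rfl
    rw [map_zero] at h3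
    exact absurd h3 (not_le.2 zero_lt_one)

theorem Apx.mul {z w : Ω} (hz : Apx K0 W z) (hw : Apx K0 W w) : Apx K0 W (z * w) := by
  intro s hs h0
  obtain ⟨b, hb, hb0, h1⟩ := hz.bdd
  obtain ⟨t', ht', h2⟩ := hw (s / b) (div_mem hs hb) (div_ne_zero h0 hb0)
  obtain ⟨b', hb', hb0', h3⟩ := (Apx.of_mem (K0 := K0) (W := W) ht').bdd
  obtain ⟨t, ht, h4⟩ := hz (s / b') (div_mem hs hb') (div_ne_zero h0 hb0')
  refine ⟨t * t', mul_mem ht ht', ?_⟩
  have : z * w - t * t' = z * (w - t') + t' * (z - t) := by ring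
  rw [this]
  refine (Valuation.map_add _ _ _).trans (max_le ?_ ?_)
  · rw [map_mul]
    calc W.valuation z * W.valuation (w - t') ≤ W.valuation b * W.valuation (s / b) :=
          mul_le_mul' h1 h2
      _ = W.valuation s := by rw [← map_mul, mul_div_cancel₀ _ hb0]
  · rw [map_mul]
    calc W.valuation t' * W.valuation (z - t) ≤ W.valuation b' * W.valuation (s / b') :=
          mul_le_mul' h3 h4
      _ = W.valuation s := by rw [← map_mul, mul_div_cancel₀ _ hb0']

/-- the subalgebra of all elements that can be approximated -/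
def ApxS (K0 : IntermediateField R Ω) (W : ValuationSubring Ω) : Subalgebra K0 Ω where
  carrier := {z | Apx K0 W z}
  mul_mem' := fun a b => Apx.mul a b
  add_mem' := fun a b => Apx.add a b
  algebraMap_mem' := fun r => Apx.of_mem r.2

theorem Apx.inv [Algebra.IsAlgebraic R Ω] {z : Ω} (hz : Apx K0 W z) : Apx K0 W z⁻¹ := by
  have h1 : IsAlgebraic K0 z :=
    (Algebra.IsAlgebraic.tower_top (K := R) (A := Ω) K0).isAlgebraic z
  exact (ApxS K0 W).inv_mem_of_algebraic (x := ⟨z, hz⟩) h1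

/-- elements which are algebraic over `K0` are bounded by elements of `K0` -/
theorem bdd_alg [Algebra.IsAlgebraic R Ω] (K0 : IntermediateField R Ω) (W : ValuationSubring Ω)
    (z : Ω) : ∃ b ∈ K0, b ≠ 0 ∧ W.valuation z ≤ W.valuation b := by
  by_contra hc
  push Not at hc
  have h1 : IsIntegral K0 z :=
    ((Algebra.IsAlgebraic.tower_top (K := R) (A := Ω) K0).isAlgebraic z).isIntegral
  have hm := minpoly.monic h1
  have hone : 1 < W.valuation z := by
    have := hc 1 (one_mem _) one_ne_zero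
    rwa [map_one] at this
  have hz0 : 0 < W.valuation z := zero_lt_one.trans hone
  have h2 := minpoly.aeval K0 z
  have hd : 0 < (minpoly K0 z).natDegree := minpoly.natDegree_pos h1
  set p := minpoly K0 z with hp
  rw [hm.as_sum, map_add, map_pow, aeval_X] at h2
  have h3 : W.valuation (aeval z (∑ i ∈ Finset.range p.natDegree, C (p.coeff i) * X ^ i)) <
      W.valuation z ^ p.natDegree := by
    rw [map_sum]
    refine Valuation.map_sum_lt _ (pow_ne_zero _ hz0.ne') ?_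
    intro i hi
    rw [Finset.mem_range] at hi
    rw [map_mul, map_pow, aeval_C, aeval_X, map_mul, map_pow]
    by_cases h0 : p.coeff i = 0
    · rw [h0]
      simp only [map_zero, zero_mul]
      exact pow_pos hz0 _
    · have h4 : W.valuation (algebraMap K0 Ω (p.coeff i)) < W.valuation z :=
        hc _ (p.coeff i).2 (by simpa using h0)
      calc W.valuation (algebraMap K0 Ω (p.coeff i)) * W.valuation z ^ i
          < W.valuation z * W.valuation z ^ i := mul_lt_mul_of_pos_right h4 (pow_pos hz0 _)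
        _ = W.valuation z ^ (i + 1) := (pow_succ' _ _).symm
        _ ≤ W.valuation z ^ p.natDegree := pow_le_pow_right₀ hone.le hi
  have h5 : z ^ p.natDegree = -(aeval z (∑ i ∈ Finset.range p.natDegree,
      C (p.coeff i) * X ^ i)) := eq_neg_of_add_eq_zero_left h2
  rw [← map_pow, h5, Valuation.map_neg] at h3
  exact lt_irrefl _ h3

/-- an element with approximations has the value of an element of `K0` -/
theorem Apx.val [Algebra.IsAlgebraic R Ω] (hπ : Unf K0 W π) {z : Ω} (hz : Apx K0 W z)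
    (h0 : z ≠ 0) : ∃ t ∈ K0, t ≠ 0 ∧ W.valuation z = W.valuation t := by
  obtain ⟨b, hb, hb0, h1⟩ := bdd_alg K0 W z⁻¹
  obtain ⟨t, ht, h2⟩ := hz (b⁻¹ * π) (mul_mem (inv_mem hb) hπ.mem)
    (mul_ne_zero (inv_ne_zero hb0) hπ.ne)
  have hvz : 0 < W.valuation z := (Valuation.pos_iff _).2 h0
  have hvb : 0 < W.valuation b := (Valuation.pos_iff _).2 hb0
  have h3 : (W.valuation b)⁻¹ ≤ W.valuation z := by
    rw [map_inv₀] at h1
    exact inv_le_of_inv_le₀ hvz h1
  have h4 : W.valuation (z - t) < W.valuation z := by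
    refine h2.trans_lt ?_
    rw [map_mul, map_inv₀]
    calc (W.valuation b)⁻¹ * W.valuation π < (W.valuation b)⁻¹ * 1 :=
          mul_lt_mul_of_pos_left hπ.lt (inv_pos.2 hvb)
      _ ≤ W.valuation z := by rw [mul_one]; exact h3
  have h5 : W.valuation z = W.valuation t := by
    have h6 : t = z - (z - t) := by ring
    rw [h6]
    exact (Valuation.map_sub_eq_of_lt_left _ h4).symm
  refine ⟨t, ht, ?_, h5⟩
  rintro rfl
  rw [map_zero] at h5
  exact hvz.ne' h5

theorem Apx.val' [Algebra.IsAlgebraic R Ω] (hπ : Unf K0 W π) {z : Ω} (hz : Apx K0 W z)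
    (h0 : z ≠ 0) : ∃ n : ℤ, W.valuation z = W.valuation π ^ n := by
  obtain ⟨t, ht, ht0, h1⟩ := hz.val hπ h0
  obtain ⟨n, hn⟩ := hπ.val t ht ht0
  exact ⟨n, h1.trans hn⟩

theorem Apx.le_pi [Algebra.IsAlgebraic R Ω] (hπ : Unf K0 W π) {z : Ω} (hz : Apx K0 W z)
    (h1 : W.valuation z < 1) : W.valuation z ≤ W.valuation π := by
  by_cases h0 : z = 0
  · rw [h0, map_zero]; exact zero_le
  obtain ⟨n, hn⟩ := hz.val' hπ h0
  have h2 := hπ.le_of_lt hn h1
  rw [hn]
  calc W.valuation π ^ n ≤ W.valuation π ^ (1 : ℤ) := hπ.anti h2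
    _ = W.valuation π := zpow_one _

/-- criterion -/
theorem Apx.of_zpow (hπ : Unf K0 W π) {z : Ω} (m : ℤ)
    (h : ∀ n : ℕ, ∃ t ∈ K0, W.valuation (z - t) ≤ W.valuation π ^ (m + n)) : Apx K0 W z := by
  intro s hs hs0
  obtain ⟨j, hj⟩ := hπ.val s hs hs0
  obtain ⟨t, ht, h1⟩ := h (j - m).toNat
  refine ⟨t, ht, h1.trans ?_⟩
  rw [hj]
  exact hπ.anti (by omega)

/-- the elements of an unramified extension can be approximated -/
theorem Apx.of_unr (hπ : Unf K0 W π)
    (hres : ∀ z ∈ W, ∃ c ∈ K0, W.valuation (z - c) < 1)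
    (L : Subfield Ω) (hL : ∀ z ∈ K0, z ∈ L)
    (hv : ∀ z ∈ L, z ≠ 0 → ∃ t ∈ K0, t ≠ 0 ∧ W.valuation z = W.valuation t) {z : Ω}
    (hz : z ∈ L) : Apx K0 W z := by
  by_cases hz0 : z = 0
  · rw [hz0]; exact Apx.of_mem (zero_mem _)
  obtain ⟨t0, ht0, ht00, h0⟩ := hv z hz hz0
  obtain ⟨m, hm⟩ := hπ.val t0 ht0 ht00
  refine Apx.of_zpow hπ m fun n => ?_
  induction n with
  | zero => exact ⟨0, zero_mem _, by rw [sub_zero, h0, hm]; simp⟩
  | succ n ih =>
    obtain ⟨t, ht, h1⟩ := ih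
    set k : ℤ := m + n with hk
    have hπk : π ^ k ≠ 0 := zpow_ne_zero _ hπ.ne
    have hvk : W.valuation π ^ k = W.valuation (π ^ k) := (map_zpow₀ _ _ _).symm
    rw [hvk, le_iff W hπk] at h1
    obtain ⟨c, hc, h2⟩ := hres _ h1
    have hyL : (z - t) / π ^ k - c ∈ L := sub_mem (div_mem (sub_mem hz (hL t ht))
      (zpow_mem (hL π hπ.mem) _)) (hL c hc)
    have h3 : W.valuation ((z - t) / π ^ k - c) ≤ W.valuation π := by
      by_cases hy0 : (z - t) / π ^ k - c = 0
      · rw [hy0, map_zero]; exact zero_le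
      obtain ⟨t', ht', ht0', h4⟩ := hv _ hyL hy0
      obtain ⟨j, hj⟩ := hπ.val t' ht' ht0'
      rw [hj] at h4
      have h5 := hπ.le_of_lt h4 h2
      rw [h4]
      calc W.valuation π ^ j ≤ W.valuation π ^ (1 : ℤ) := hπ.anti h5
        _ = W.valuation π := zpow_one _
    refine ⟨t + c * π ^ k, add_mem ht (mul_mem hc (zpow_mem hπ.mem _)), ?_⟩
    have h6 : z - (t + c * π ^ k) = π ^ k * ((z - t) / π ^ k - c) := by
      field_simp
      ring
    rw [h6, map_mul, map_zpow₀]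
    calc W.valuation π ^ k * W.valuation ((z - t) / π ^ k - c)
        ≤ W.valuation π ^ k * W.valuation π := mul_le_mul' le_rfl h3
      _ = W.valuation π ^ (m + (n + 1 : ℕ)) := by
        rw [← zpow_add_one₀ hπ.pos.ne']
        congr 1
        push_cast
        omega

/-- Taylor expansion of a power with remainder in the valuation ring -/
theorem pow_exp (W : ValuationSubring Ω) {t δ : Ω} (ht : W.valuation t ≤ 1)
    (hδ : W.valuation δ ≤ 1) (n : ℕ) :
    ∃ k : Ω, W.valuation k ≤ 1 ∧ (t + δ) ^ n = t ^ n + n * t ^ (n - 1) * δ + k * δ ^ 2 := by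
  rw [W.valuation_le_one_iff] at ht hδ
  obtain ⟨k, hk⟩ := Polynomial.powAddExpansion (⟨t, ht⟩ : W) ⟨δ, hδ⟩ n
  refine ⟨k, (W.valuation_le_one_iff _).2 k.2, ?_⟩
  have := congrArg (Subtype.val) hk
  push_cast at this
  exact this

/-- `ℓ`-th roots of units that can be approximated can be approximated -/
theorem Apx.root_unit [Algebra.IsAlgebraic R Ω] (hπ : Unf K0 W π)
    (hres : ∀ z ∈ W, ∃ c ∈ K0, W.valuation (z - c) < 1) {ℓ : ℕ} (hℓ0 : ℓ ≠ 0)
    (hℓ : W.valuation (ℓ : Ω) = 1) (w : Ω) (hw : Apx K0 W (w ^ ℓ))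
    (h1 : W.valuation (w ^ ℓ) = 1) : Apx K0 W w := by
  have hw1 : W.valuation w = 1 := by
    rw [map_pow] at h1
    exact (pow_eq_one_iff_of_nonneg zero_le hℓ0).1 h1
  -- facts on `t` close to `w`
  have key : ∀ t : Ω, W.valuation (w - t) < 1 → W.valuation t = 1 ∧
      W.valuation ((ℓ : Ω) * t ^ (ℓ - 1)) = 1 := by
    intro t ht
    have h2 : W.valuation t = 1 := by
      have h3 : t = w - (w - t) := by ring
      rw [h3, Valuation.map_sub_eq_of_lt_left _ (by rwa [hw1]), hw1]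
    refine ⟨h2, ?_⟩
    rw [map_mul, map_pow, hℓ, h2, one_pow, one_mul]
  refine Apx.of_zpow hπ 1 fun n => ?_
  induction n with
  | zero =>
    obtain ⟨c, hc, h2⟩ := hres w (by rw [← W.valuation_le_one_iff, hw1])
    refine ⟨c, hc, ?_⟩
    obtain ⟨h3, h4⟩ := key c h2
    obtain ⟨k, hk, h5⟩ := pow_exp W (t := c) (δ := w - c) h3.le h2.le ℓ
    rw [add_sub_cancel] at h5
    have h6 : w ^ ℓ - c ^ ℓ = (w - c) * ((ℓ : Ω) * c ^ (ℓ - 1) + k * (w - c)) := by
      rw [h5]; ring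
    have h7 : W.valuation ((ℓ : Ω) * c ^ (ℓ - 1) + k * (w - c)) = 1 := by
      have h8 : W.valuation (k * (w - c)) < W.valuation ((ℓ : Ω) * c ^ (ℓ - 1)) := by
        rw [h4, map_mul]
        exact (mul_le_of_le_one_left' hk).trans_lt h2
      rw [Valuation.map_add_eq_of_lt_left _ h8, h4]
    have h9 : W.valuation (w ^ ℓ - c ^ ℓ) = W.valuation (w - c) := by
      rw [h6, map_mul, h7, mul_one]
    have h10 : Apx K0 W (w ^ ℓ - c ^ ℓ) := by
      rw [sub_eq_add_neg]
      exact hw.add (Apx.of_mem (neg_mem (pow_mem hc _)))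
    have h11 := h10.le_pi hπ (by rw [h9]; exact h2)
    rw [h9] at h11
    simpa using h11
  | succ n ih =>
    obtain ⟨t, ht, h2⟩ := ih
    have hlt : W.valuation (w - t) < 1 := by
      refine h2.trans_lt (lt_of_le_of_lt (hπ.anti (show (1 : ℤ) ≤ 1 + n by omega)) ?_)
      rw [zpow_one]; exact hπ.lt
    obtain ⟨h3, h4⟩ := key t hlt
    obtain ⟨k, hk, h5⟩ := pow_exp W (t := t) (δ := w - t) h3.le hlt.le ℓ
    rw [add_sub_cancel] at h5
    obtain ⟨t', ht', h6⟩ := hw (π ^ (1 + (n + 1 : ℕ) : ℤ)) (zpow_mem hπ.mem _)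
      (zpow_ne_zero _ hπ.ne)
    rw [map_zpow₀] at h6
    have ha0 : (ℓ : Ω) * t ^ (ℓ - 1) ≠ 0 := by
      intro h
      rw [h, map_zero] at h4
      exact zero_ne_one h4
    refine ⟨t + (t' - t ^ ℓ) / ((ℓ : Ω) * t ^ (ℓ - 1)), add_mem ht (div_mem (sub_mem ht'
      (pow_mem ht _)) (mul_mem (natCast_mem _ _) (pow_mem ht _))), ?_⟩
    have h7 : ((ℓ : Ω) * t ^ (ℓ - 1)) *
        (w - (t + (t' - t ^ ℓ) / ((ℓ : Ω) * t ^ (ℓ - 1)))) =
        (w ^ ℓ - t') - k * (w - t) ^ 2 := by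
      have h8 : ((ℓ : Ω) * t ^ (ℓ - 1)) *
        (w - (t + (t' - t ^ ℓ) / ((ℓ : Ω) * t ^ (ℓ - 1)))) =
        ((ℓ : Ω) * t ^ (ℓ - 1)) * (w - t) - (t' - t ^ ℓ) := by
        rw [mul_sub, mul_add, mul_div_cancel₀ _ ha0, mul_sub]
        ring
      rw [h8, h5]
      ring
    have h9 : W.valuation (w - (t + (t' - t ^ ℓ) / ((ℓ : Ω) * t ^ (ℓ - 1)))) =
        W.valuation ((w ^ ℓ - t') - k * (w - t) ^ 2) := by
      rw [← h7, map_mul, h4, one_mul]
    rw [h9]
    refine (Valuation.map_sub _ _ _).trans (max_le h6 ?_)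
    rw [map_mul, map_pow]
    calc W.valuation k * W.valuation (w - t) ^ 2 ≤ 1 * (W.valuation π ^ (1 + n : ℤ)) ^ 2 :=
          mul_le_mul' hk (pow_le_pow_left' h2 2)
      _ = W.valuation π ^ ((1 + n : ℤ) * 2) := by
          rw [one_mul, zpow_mul]; norm_cast
      _ ≤ W.valuation π ^ (1 + (n + 1 : ℕ) : ℤ) := hπ.anti (by push_cast; nlinarith)

/-- `ℓ`-th roots of elements of order divisible by `ℓ` can be approximated -/
theorem Apx.root [Algebra.IsAlgebraic R Ω] (hπ : Unf K0 W π)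
    (hres : ∀ z ∈ W, ∃ c ∈ K0, W.valuation (z - c) < 1) {ℓ : ℕ} (hℓ0 : ℓ ≠ 0)
    (hℓ : W.valuation (ℓ : Ω) = 1) (h : Ω) (hg : Apx K0 W (h ^ ℓ)) (m : ℤ)
    (h1 : W.valuation (h ^ ℓ) = W.valuation π ^ (ℓ * m : ℤ)) : Apx K0 W h := by
  have hπm : π ^ m ≠ 0 := zpow_ne_zero _ hπ.ne
  have h2 : Apx K0 W (h / π ^ m) := by
    refine Apx.root_unit hπ hres hℓ0 hℓ _ ?_ ?_
    · rw [div_pow, div_eq_mul_inv]
      exact hg.mul (Apx.of_mem (inv_mem (pow_mem (zpow_mem hπ.mem _) _)))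
    · rw [div_pow, map_div₀, h1, map_pow, map_zpow₀, ← zpow_natCast, ← zpow_mul, mul_comm m]
      exact div_self (zpow_ne_zero _ hπ.pos.ne')
  have h3 := h2.mul (Apx.of_mem (K0 := K0) (W := W) (zpow_mem hπ.mem m))
  rwa [div_mul_cancel₀ _ hπm] at h3

end Pool.Agent.Y948.PS
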