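import Pool.Agent.Y948.PS.Cov2

/-!
# Pro-`ℓ` elements of the algebraic closure

(helper948, task COV of project PS.)
-/

set_option autoImplicit false
set_option linter.all false

open Polynomial FF Pool.Agent.Y157.PS

namespace Pool.Agent.Y948.PS

section pro

variable {R Ω : Type} [Field R] [Field Ω] [Algebra R Ω]

/-- some `ℓ`-power of every automorphism fixes all conjugates of `z` -/
def Pro (ℓ : ℕ) (R : Type) {Ω : Type} [Field R] [Field Ω] [Algebra R Ω] (z : Ω) : Prop :=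
  ∃ k : ℕ, ∀ σ γ : Ω ≃ₐ[R] Ω, (σ ^ (ℓ ^ k)) (γ z) = γ z

theorem Pro.mono {ℓ k k' : ℕ} {z : Ω} (h : ∀ σ γ : Ω ≃ₐ[R] Ω, (σ ^ (ℓ ^ k)) (γ z) = γ z)
    (hk : k ≤ k') (σ γ : Ω ≃ₐ[R] Ω) : (σ ^ (ℓ ^ k')) (γ z) = γ z := by
  obtain ⟨j, rfl⟩ := Nat.exists_eq_add_of_le hk
  have := h (σ ^ (ℓ ^ j)) γ
  rwa [← pow_mul, ← pow_add, add_comm] at this

theorem Pro.two {ℓ : ℕ} {z w : Ω} (hz : Pro ℓ R z) (hw : Pro ℓ R w) :
    ∃ k : ℕ, ∀ σ γ : Ω ≃ₐ[R] Ω, (σ ^ (ℓ ^ k)) (γ z) = γ z ∧ (σ ^ (ℓ ^ k)) (γ w) = γ w := by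
  obtain ⟨k, hk⟩ := hz
  obtain ⟨k', hk'⟩ := hw
  exact ⟨max k k', fun σ γ => ⟨Pro.mono hk (le_max_left _ _) σ γ,
    Pro.mono hk' (le_max_right _ _) σ γ⟩⟩

theorem Pro.add {ℓ : ℕ} {z w : Ω} (hz : Pro ℓ R z) (hw : Pro ℓ R w) : Pro ℓ R (z + w) := by
  obtain ⟨k, hk⟩ := hz.two hw
  exact ⟨k, fun σ γ => by rw [map_add, map_add, (hk σ γ).1, (hk σ γ).2]⟩

theorem Pro.mul {ℓ : ℕ} {z w : Ω} (hz : Pro ℓ R z) (hw : Pro ℓ R w) : Pro ℓ R (z * w) := by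
  obtain ⟨k, hk⟩ := hz.two hw
  exact ⟨k, fun σ γ => by rw [map_mul, map_mul, (hk σ γ).1, (hk σ γ).2]⟩

theorem Pro.inv {ℓ : ℕ} {z : Ω} (hz : Pro ℓ R z) : Pro ℓ R z⁻¹ := by
  obtain ⟨k, hk⟩ := hz
  exact ⟨k, fun σ γ => by rw [map_inv₀, map_inv₀, hk σ γ]⟩

theorem Pro.base (ℓ : ℕ) (r : R) : Pro ℓ R (algebraMap R Ω r) :=
  ⟨0, fun σ γ => by rw [γ.commutes, (σ ^ (ℓ ^ 0)).commutes]⟩

theorem Pro.conj {ℓ : ℕ} {z : Ω} (hz : Pro ℓ R z) (γ : Ω ≃ₐ[R] Ω) : Pro ℓ R (γ z) := by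
  obtain ⟨k, hk⟩ := hz
  exact ⟨k, fun σ γ' => hk σ (γ' * γ)⟩

/-- `ℓ`-th roots, when `R` contains the `ℓ`-th roots of unity of `Ω` -/
theorem root_fix {ℓ : ℕ} (hμ : ∀ ζ : Ω, ζ ^ ℓ = 1 → ∃ c : R, algebraMap R Ω c = ζ)
    (τ : Ω ≃ₐ[R] Ω) (h : Ω) (hh : τ (h ^ ℓ) = h ^ ℓ) : (τ ^ ℓ) h = h := by
  by_cases h0 : h = 0
  · rw [h0, map_zero]
  obtain ⟨c, hc⟩ := hμ (τ h / h) (by
    rw [div_pow, ← map_pow, hh, div_self (pow_ne_zero _ h0)])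
  have h1 : τ h = algebraMap R Ω c * h := by rw [hc, div_mul_cancel₀ _ h0]
  have h2 : ∀ j : ℕ, (τ ^ j) h = algebraMap R Ω c ^ j * h := by
    intro j
    induction j with
    | zero => simp
    | succ j ih => rw [pow_succ', AlgEquiv.mul_apply, ih, map_mul, map_pow, τ.commutes, h1]; ring
  have h3 : algebraMap R Ω c ^ ℓ = 1 := by
    rw [hc, div_pow, ← map_pow, hh, div_self (pow_ne_zero _ h0)]
  rw [h2, h3, one_mul]

theorem Pro.root {ℓ : ℕ} (hμ : ∀ ζ : Ω, ζ ^ ℓ = 1 → ∃ c : R, algebraMap R Ω c = ζ)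
    {h : Ω} (hg : Pro ℓ R (h ^ ℓ)) : Pro ℓ R h := by
  obtain ⟨k, hk⟩ := hg
  refine ⟨k + 1, fun σ γ => ?_⟩
  rw [pow_succ, pow_mul]
  refine root_fix hμ _ _ ?_
  have := hk σ γ
  rwa [map_pow] at this

/-- a finite Galois extension whose elements are fixed by `ℓ`-power powers of automorphisms -/
theorem lev_of {ℓ : ℕ} [Fact ℓ.Prime] [Normal R Ω] (N : IntermediateField R Ω)
    [FiniteDimensional R N] [IsGalois R N]
    (h : ∀ θ ∈ N, ∀ σ : Ω ≃ₐ[R] Ω, ∃ k : ℕ, (σ ^ (ℓ ^ k)) θ = θ) :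
    ∃ m : ℕ, Module.finrank R N = ℓ ^ m := by
  obtain ⟨θ, hθ⟩ := Field.exists_primitive_element R N
  have hp : IsPGroup ℓ (N ≃ₐ[R] N) := by
    intro g
    obtain ⟨k, hk⟩ := h θ θ.2 (g.liftNormal Ω)
    refine ⟨k, ?_⟩
    have h1 : ∀ (j : ℕ) (z : N), ((g.liftNormal Ω) ^ j) (z : Ω) = ((g ^ j) z : N) := by
      intro j
      induction j with
      | zero => intro z; simp
      | succ j ih =>
        intro z
        rw [pow_succ, AlgEquiv.mul_apply, pow_succ, AlgEquiv.mul_apply, ← ih]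
        congr 1
        exact AlgEquiv.liftNormal_commutes g Ω z
    have h2 : (g ^ (ℓ ^ k)) θ = θ := by
      apply Subtype.ext
      rw [← h1, hk]
    apply AlgEquiv.ext
    intro z
    have hz : z ∈ IntermediateField.adjoin R {θ} := by rw [hθ]; trivial
    rw [AlgEquiv.one_apply]
    induction hz using IntermediateField.adjoin_induction with
    | mem y hy => rw [Set.mem_singleton_iff.1 hy]; exact h2
    | algebraMap r => exact (g ^ (ℓ ^ k)).commutes r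
    | add y w _ _ hy hw => rw [map_add, hy, hw]
    | inv y _ hy => rw [map_inv₀, hy]
    | mul y w _ _ hy hw => rw [map_mul, hy, hw]
  obtain ⟨m, hm⟩ := IsPGroup.iff_card.1 hp
  exact ⟨m, by rw [← IsGalois.card_aut_eq_finrank, hm]⟩

end pro

end Pool.Agent.Y948.PS
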