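import Pool.Agent.Y948.PS.Cov3

/-!
# The maximal unramified pro-`ℓ` extension of `κ(x, Y)`

(helper948, task COV of project PS.)
-/

set_option autoImplicit false
set_option linter.all false

open Polynomial FF Pool.Agent.Y157.PS

namespace Pool.Agent.Y948.PS

section setup

variable {κ R Ω : Type} [Field κ] [Field R] [Field Ω] [Algebra κ R] [Algebra R Ω] [Algebra κ Ω]
  [IsScalarTower κ R Ω]

theorem mu [IsAlgClosed κ] {ℓ : ℕ} (hℓ : ℓ ≠ 0) (ζ : Ω) (hζ : ζ ^ ℓ = 1) :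
    ∃ c : κ, algebraMap κ Ω c = ζ := by
  have h1 : IsIntegral κ ζ := by
    refine ⟨X ^ ℓ - 1, ?_, ?_⟩
    · have := monic_X_pow_sub_C (1 : κ) hℓ
      rwa [C_1] at this
    · rw [eval₂_sub, eval₂_pow, eval₂_X, eval₂_one, hζ, sub_self]
  exact minpoly.mem_range_of_degree_eq_one κ ζ
    (IsAlgClosed.degree_eq_one_of_irreducible κ (minpoly.irreducible h1))

theorem muR [IsAlgClosed κ] {ℓ : ℕ} (hℓ : ℓ ≠ 0) (ζ : Ω) (hζ : ζ ^ ℓ = 1) :
    ∃ c : R, algebraMap R Ω c = ζ := by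
  obtain ⟨c, hc⟩ := mu (κ := κ) hℓ ζ hζ
  exact ⟨algebraMap κ R c, by rw [← IsScalarTower.algebraMap_apply, hc]⟩

/-- `κ(x, Y)` is stable under automorphisms -/
theorem K0_stable {ℓ : ℕ} (hμ : ∀ ζ : Ω, ζ ^ ℓ = 1 → ∃ c : R, algebraMap R Ω c = ζ)
    {Y : Ω} {f : R} (hY : Y ^ ℓ = algebraMap R Ω f) (γ : Ω ≃ₐ[R] Ω) {t : Ω}
    (ht : t ∈ IntermediateField.adjoin R {Y}) : γ t ∈ IntermediateField.adjoin R {Y} := by
  have hYm : Y ∈ IntermediateField.adjoin R {Y} := IntermediateField.mem_adjoin_simple_self R Y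
  have h1 : γ Y ∈ IntermediateField.adjoin R {Y} := by
    by_cases h0 : Y = 0
    · rw [h0, map_zero]; exact zero_mem _
    obtain ⟨c, hc⟩ := hμ (γ Y / Y) (by
      rw [div_pow, ← map_pow, hY, γ.commutes, div_self]
      rw [← hY]; exact pow_ne_zero _ h0)
    have h2 : γ Y = algebraMap R Ω c * Y := by rw [hc, div_mul_cancel₀ _ h0]
    rw [h2]
    exact mul_mem (algebraMap_mem _ _) hYm
  induction ht using IntermediateField.adjoin_induction with
  | mem y hy => rw [Set.mem_singleton_iff.1 hy]; exact h1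
  | algebraMap r => rw [γ.commutes]; exact algebraMap_mem _ _
  | add y w _ _ hy hw => rw [map_add]; exact add_mem hy hw
  | inv y _ hy => rw [map_inv₀]; exact inv_mem hy
  | mul y w _ _ hy hw => rw [map_mul]; exact mul_mem hy hw

/-- an automorphism which fixes `Y` fixes `κ(x, Y)` -/
theorem K0_fix {Y : Ω} (γ : Ω ≃ₐ[R] Ω) (h : γ Y = Y) {t : Ω}
    (ht : t ∈ IntermediateField.adjoin R {Y}) : γ t = t := by
  induction ht using IntermediateField.adjoin_induction with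
  | mem y hy => rw [Set.mem_singleton_iff.1 hy]; exact h
  | algebraMap r => rw [γ.commutes]
  | add y w _ _ hy hw => rw [map_add, hy, hw]
  | inv y _ hy => rw [map_inv₀, hy]
  | mul y w _ _ hy hw => rw [map_mul, hy, hw]

/-- conjugates of valuation rings -/
theorem Apx.conj {K0 : IntermediateField R Ω} (hK : ∀ (γ : Ω ≃ₐ[R] Ω), ∀ t ∈ K0, γ t ∈ K0)
    {W : ValuationSubring Ω} (γ : Ω ≃ₐ[R] Ω) {z : Ω}
    (h : Apx K0 (W.comap (γ : Ω →+* Ω)) z) : Apx K0 W (γ z) := by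
  intro s hs hs0
  have hs' : γ.symm s ≠ 0 := fun h => hs0 (by simpa using h)
  obtain ⟨t, ht, h1⟩ := h (γ.symm s) (hK _ s hs) hs'
  refine ⟨γ t, hK _ t ht, ?_⟩
  rw [le_iff _ hs', ValuationSubring.mem_comap] at h1
  rw [le_iff _ hs0]
  simpa using h1

/-- elements of the maximal unramified pro-`ℓ` extension -/
def Mem (ℓ : ℕ) (κ : Type) {R Ω : Type} [Field κ] [Field R] [Field Ω] [Algebra R Ω]
    [Algebra κ Ω] (K0 : IntermediateField R Ω) (z : Ω) : Prop :=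
  Pro ℓ R z ∧ ∀ W : ValuationSubring Ω, (∀ c : κ, algebraMap κ Ω c ∈ W) → W ≠ ⊤ → Apx K0 W z

theorem Mem.conj {ℓ : ℕ} {K0 : IntermediateField R Ω}
    (hK : ∀ (γ : Ω ≃ₐ[R] Ω), ∀ t ∈ K0, γ t ∈ K0) {z : Ω} (hz : Mem ℓ κ K0 z)
    (γ : Ω ≃ₐ[R] Ω) : Mem ℓ κ K0 (γ z) := by
  refine ⟨hz.1.conj γ, fun W hκ hW => Apx.conj hK γ (hz.2 _ ?_ ?_)⟩
  · intro c
    rw [ValuationSubring.mem_comap]
    have : (γ : Ω →+* Ω) (algebraMap κ Ω c) = algebraMap κ Ω c := by
      rw [IsScalarTower.algebraMap_apply κ R Ω]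
      exact γ.commutes _
    rw [this]
    exact hκ c
  · intro h
    apply hW
    ext y
    simp only [ValuationSubring.mem_top, iff_true]
    have : γ.symm y ∈ W.comap (γ : Ω →+* Ω) := by rw [h]; trivial
    rw [ValuationSubring.mem_comap] at this
    simpa using this

end setup

end Pool.Agent.Y948.PS
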