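import Pool.Agent.Y948.PS.Cov4

/-!
# The maximal unramified pro-`ℓ` extension of `κ(x, Y)`, 2

(helper948, task COV of project PS.)
-/

set_option autoImplicit false
set_option linter.all false

open Polynomial FF Pool.Agent.Y157.PS

namespace Pool.Agent.Y948.PS

section setup

variable {κ R Ω : Type} [Field κ] [Field R] [Field Ω] [Algebra κ R] [Algebra R Ω] [Algebra κ Ω]
  [IsScalarTower κ R Ω]

/-- the field of the elements with `Mem` -/
def MF (ℓ : ℕ) (κ : Type) [Field κ] [Algebra κ Ω] [Algebra.IsAlgebraic R Ω]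
    (K0 : IntermediateField R Ω) : IntermediateField R Ω where
  carrier := {z | Mem ℓ κ K0 z}
  mul_mem' := fun {a b} ha hb => ⟨ha.1.mul hb.1, fun W h1 h2 => (ha.2 W h1 h2).mul (hb.2 W h1 h2)⟩
  add_mem' := fun {a b} ha hb => ⟨ha.1.add hb.1, fun W h1 h2 => (ha.2 W h1 h2).add (hb.2 W h1 h2)⟩
  algebraMap_mem' := fun r => ⟨Pro.base ℓ r, fun W h1 h2 => Apx.of_mem (algebraMap_mem _ _)⟩
  inv_mem' := fun a ha => ⟨ha.1.inv, fun W h1 h2 => (ha.2 W h1 h2).inv⟩

theorem mem_MF {ℓ : ℕ} [Algebra.IsAlgebraic R Ω] {K0 : IntermediateField R Ω} {z : Ω} :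
    z ∈ MF ℓ κ K0 ↔ Mem ℓ κ K0 z := Iff.rfl

/-- the hypothesis on uniformisers -/
def HU (κ : Type) [Field κ] [Algebra κ Ω] (K0 : IntermediateField R Ω) : Prop :=
  ∀ W : ValuationSubring Ω, (∀ c : κ, algebraMap κ Ω c ∈ W) → W ≠ ⊤ → ∃ π, Unf K0 W π

/-- residues -/
theorem hres [IsAlgClosed κ] [Algebra.IsAlgebraic R Ω] {x : R} (hx : RatF κ x)
    (K0 : IntermediateField R Ω)
    (W : ValuationSubring Ω) (hκ : ∀ c : κ, algebraMap κ Ω c ∈ W) (hW : W ≠ ⊤) :
    ∀ z ∈ W, ∃ c ∈ K0, W.valuation (z - c) < 1 := by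
  intro z hz
  obtain ⟨c, hc⟩ := res hx W hκ hW hz
  refine ⟨_, ?_, hc⟩
  rw [IsScalarTower.algebraMap_apply κ R Ω]
  exact algebraMap_mem _ _

theorem vl [CharZero κ] {ℓ : ℕ} (hℓ : ℓ ≠ 0) (W : ValuationSubring Ω)
    (hκ : ∀ c : κ, algebraMap κ Ω c ∈ W) : W.valuation (ℓ : Ω) = 1 := by
  rw [← isU_iff]
  have h1 : algebraMap κ Ω (ℓ : κ) = (ℓ : Ω) := map_natCast _ _
  refine ⟨?_, ?_, ?_⟩
  · rw [← h1, Ne, map_eq_zero]
    exact_mod_cast hℓ
  · rw [← h1]; exact hκ _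
  · rw [← h1, ← map_inv₀]; exact hκ _

/-- upper bound for `maxPro` -/
theorem maxPro_le [IsAlgClosed κ] {ℓ : ℕ} [Fact ℓ.Prime] [Algebra.IsAlgebraic R Ω] [Normal R Ω]
    {x : R} (hx : RatF κ x) {Y : Ω} {f : R} (hY : Y ^ ℓ = algebraMap R Ω f)
    (hU : HU κ (IntermediateField.adjoin R {Y})) {z : Ω}
    (hz : z ∈ maxPro ℓ κ (IntermediateField.adjoin R {Y}) Ω) :
    Mem ℓ κ (IntermediateField.adjoin R {Y}) z := by
  set K0 := IntermediateField.adjoin R {Y} with hK0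
  have hℓ0 : ℓ ≠ 0 := (Fact.out : ℓ.Prime).ne_zero
  have hμ : ∀ ζ : Ω, ζ ^ ℓ = 1 → ∃ c : R, algebraMap R Ω c = ζ := fun ζ => muR (κ := κ) hℓ0 ζ
  -- `MF` over `K0`
  have hPY : Pro ℓ R Y := Pro.root hμ (by rw [hY]; exact Pro.base ℓ f)
  have hP0 : ∀ t ∈ K0, Mem ℓ κ K0 t := by
    intro t ht
    refine ⟨?_, fun W h1 h2 => Apx.of_mem ht⟩
    rw [hK0] at ht
    induction ht using IntermediateField.adjoin_induction with
    | mem y hy => rw [Set.mem_singleton_iff.1 hy]; exact hPY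
    | algebraMap r => exact Pro.base ℓ r
    | add y w _ _ hy hw => exact hy.add hw
    | inv y _ hy => exact hy.inv
    | mul y w _ _ hy hw => exact hy.mul hw
  let MK : IntermediateField K0 Ω :=
    { (MF ℓ κ K0).toSubfield with
      algebraMap_mem' := fun r => hP0 _ r.2
      inv_mem' := fun a ha => (MF ℓ κ K0).inv_mem ha }
  have hle : maxPro ℓ κ K0 Ω ≤ MK := by
    refine iSup_le ?_
    rintro ⟨L, hL, hLu⟩ y hy
    change Mem ℓ κ K0 y
    constructor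
    · obtain ⟨a, ha⟩ := hL.card
      haveI := hL.fin
      haveI := hL.gal
      refine ⟨a + 1, fun σ γ => ?_⟩
      set τ : Ω ≃ₐ[R] Ω := γ⁻¹ * σ * γ with hτ
      have h1 : (τ ^ ℓ) Y = Y := root_fix hμ τ Y (by rw [hY, τ.commutes])
      have h2 : τ ^ ℓ ∈ K0.fixingSubgroup := by
        rw [IntermediateField.mem_fixingSubgroup_iff]
        intro t ht
        exact K0_fix _ h1 ht
      let τ' : Ω ≃ₐ[K0] Ω := IntermediateField.fixingSubgroupEquiv K0 ⟨τ ^ ℓ, h2⟩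
      have h3 : ∀ (j : ℕ) (w : Ω), (τ' ^ j) w = ((τ ^ ℓ) ^ j) w := by
        intro j
        induction j with
        | zero => intro w; simp
        | succ j ih =>
          intro w
          rw [pow_succ, AlgEquiv.mul_apply, ih, pow_succ, AlgEquiv.mul_apply]
          rfl
      have h4 : (AlgEquiv.restrictNormalHom L τ') ^ (ℓ ^ a) = 1 := by
        rw [← ha, ← IsGalois.card_aut_eq_finrank]
        exact pow_card_eq_one'
      rw [← map_pow] at h4
      have h5 : (τ' ^ (ℓ ^ a)) y = y := by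
        have := AlgEquiv.restrictNormal_commutes (τ' ^ (ℓ ^ a)) L ⟨y, hy⟩
        have h6 : (τ' ^ (ℓ ^ a)).restrictNormal L = 1 := h4
        rw [h6] at this
        exact this.symm
      rw [h3, ← pow_mul, ← pow_succ'] at h5
      have h7 : γ⁻¹ * σ ^ (ℓ ^ (a + 1)) * γ = τ ^ (ℓ ^ (a + 1)) := by
        rw [hτ]
        have := conj_pow (i := ℓ ^ (a + 1)) (a := γ⁻¹) (b := σ)
        rw [inv_inv] at this
        exact this.symm
      rw [← h7] at h5
      have h8 : γ (γ⁻¹ ((σ ^ (ℓ ^ (a + 1))) (γ y))) = γ y := by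
        congr 1
      have h9 : ∀ w, γ (γ⁻¹ w) = w := fun w => by
        rw [← AlgEquiv.mul_apply, mul_inv_cancel, AlgEquiv.one_apply]
      rwa [h9] at h8
    · intro W hκ hW
      obtain ⟨π, hπ⟩ := hU W hκ hW
      refine Apx.of_unr hπ (hres hx K0 W hκ hW) L.toSubfield
        (fun t ht => L.algebraMap_mem ⟨t, ht⟩) ?_ hy
      intro w hw hw0
      obtain ⟨t, ht0, ht⟩ := hLu W hκ w hw hw0
      have ht0' : (t : Ω) ≠ 0 := by simpa using ht0
      refine ⟨t, t.2, ht0', ?_⟩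
      have h1 := (isU_iff W).1 ht
      have h2 : algebraMap K0 Ω t = (t : Ω) := rfl
      rw [h2, map_div₀] at h1
      rwa [div_eq_one_iff_eq] at h1
      exact ((Valuation.pos_iff _).2 ht0').ne'
  exact hle hz

end setup

end Pool.Agent.Y948.PS
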